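import Pool.Agent.H2TV.AllS

/-!
The vortex lines are bent at the singular points of Navier-Stokes flows.

`V` is `ℝ³` with the maximum norm (the balls are cubes), `len` is the Euclidean length, `vort v` is
the curl of `v` and `om v` its length. A point `a` is singular at the time `T` (`Sing T u a`) if `u`
is unbounded in every neighbourhood of `(T, a)`.

Let `ω = curl u(t)` and `ξ = ω / |ω|`. The theorem: if `a` is singular then there is an `ε > 0` such
that for all `M`, in all neighbourhoods of `(T, a)`, there are arcs of vortex lines on which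
`|ω| > M` and for which the distance of the end points is less than `1 - ε` times the length.

So `a` is not singular if the arcs of the vortex lines in `{|y - a| ≤ R, |ω| > M}` are asymptotically
straight: the infimum of the ratios chord / length tends to `1` for `t → T`, `R → 0`, `M → ∞`. This
is so if the oscillation of the direction `ξ` along these arcs tends to `0` (`turns` below); for
example, if the direction, up to the sign, has any modulus of continuity in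
`{|y - a| ≤ R, |ω| > M}`, uniformly in time (`modulus` below). Constantin and Fefferman proved this
for Lipschitz continuous directions, Beirao da Veiga and Berselli for directions which are Hölder
continuous with the exponent `1 / 2`, Giga and Miura for arbitrary moduli if the blow-up is of
type I. Here the directions of different vortex lines through nearby points are not compared, the
direction may turn along the vortex lines (slowly, as for a logarithmic spiral of small slope), and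
there is no condition on the rate of the blow-up.
-/

open MeasureTheory Set Metric
open H459R3.NS Pool.Agent.W268.NS
open Pool.Agent.Q67.VD (om len)
open Pool.Agent.Q85.CL (Sing Blow DSl WSl)

set_option autoImplicit false

namespace Pool.Agent.Results.MP_6bf1e5_an.BendingOfVortexLines

/-- The direction of the vorticity of `v`. -/
noncomputable def dir (v : V → V) (y : V) : V := (om v y)⁻¹ • vort v y

/-- The unit speed curve `γ : [0, l] → ℝ³`, `l > 0`, is an arc of a vortex line of `v`, and the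
vorticity is larger than `M` on it: `γ' = ω / |ω|` and `|ω| > M` at the points of the arc. -/
def VortexArc (v : V → V) (M : ℝ) (γ : ℝ → V) (l : ℝ) : Prop :=
  0 < l ∧ ∀ s ∈ Icc (0 : ℝ) l, M < om v (γ s) ∧ HasDerivWithinAt γ (dir v (γ s)) (Icc 0 l) s

/-- There is an `ε > 0` such that for all `M`, all `0 ≤ T₀ < T` and `R > 0` there are a time `t` in
`(T₀, T)` and an arc `γ` of a vortex line of `u(t)` in the cube `‖y - a‖ ≤ R`, with `|ω| > M` on it,
for which the distance of the end points is less than `1 - ε` times the length. -/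
def BendsAt (T : ℝ) (u : ℝ → V → V) (a : V) : Prop :=
  ∃ ε : ℝ, 0 < ε ∧ ∀ M T₀ R : ℝ, 0 ≤ T₀ → T₀ < T → 0 < R →
    ∃ t ∈ Ioo T₀ T, ∃ (γ : ℝ → V) (l : ℝ), VortexArc (u t) M γ l ∧
      (∀ s ∈ Icc (0 : ℝ) l, ‖γ s - a‖ ≤ R) ∧ len (γ l - γ 0) < (1 - ε) * l

lemma bendsAt {T : ℝ} {u : ℝ → V → V} {a : V} (h : H2TV.BendsAt T u a) : BendsAt T u a := by
  obtain ⟨ε, hε, h⟩ := h
  refine ⟨ε, hε, fun M T₀ R h0 h1 h2 => ?_⟩
  obtain ⟨t, ht, p, q, l, ⟨hl, γ, hp, hq, hγ⟩, hlt⟩ := h (max M 0) T₀ R h0 h1 h2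
  refine ⟨t, ht, γ, l, ⟨hl, fun s hs => ⟨(le_max_left _ _).trans_lt (hγ s hs).1.2, (hγ s hs).2⟩⟩,
    fun s hs => (hγ s hs).1.1, ?_⟩
  rw [hp, hq]
  exact hlt

/-- The bending of the vortex lines at the singular points, for smooth solutions of the
Navier-Stokes equations without force, with viscosity `ν > 0`,

(a) in `(0, T) × Ω`, `Ω` open, with finite energy, finite dissipation and integrable pressure;

(b) in `(0, T) × ℝ³` with bounded energy, finite dissipation and pressure integrable over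
`(0, T) × B` for balls `B`;

(c) periodic, on `[0, T) × ℝ³`.

In the cases (b) and (c) there is a singular point if `u` is unbounded near the time `T`. -/
theorem result (ν T : ℝ) (u : ℝ → V → V) (p : ℝ → V → ℝ) (hν : 0 < ν) :
    (∀ (E : ℝ) (Ω : Set V), DSl ν T E Ω u p → ∀ a ∈ Ω, Sing T u a → BendsAt T u a) ∧
    (∀ E : ℝ, WSl ν T E u p → (Blow T u → ∃ a, Sing T u a) ∧ ∀ a, Sing T u a → BendsAt T u a) ∧
    (IsSol ν T u p → (Blow T u → ∃ a, Sing T u a) ∧ ∀ a, Sing T u a → BendsAt T u a) :=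
  ⟨fun _ _ h _ ha hs => bendsAt (H2TV.bends_D hν h ha hs),
    fun _ h => ⟨(H2TV.bends_W hν h).1, fun a hs => bendsAt ((H2TV.bends_W hν h).2 a hs)⟩,
    fun h => ⟨(H2TV.bends_P hν h).1, fun a hs => bendsAt ((H2TV.bends_P hν h).2 a hs)⟩⟩

/-! ### Special cases -/

/-- There is an `ε > 0` such that for all `M`, all `0 ≤ T₀ < T` and `R > 0` there are a time `t` in
`(T₀, T)` and an arc `γ` of a vortex line of `u(t)` in the cube `‖y - a‖ ≤ R`, with `|ω| > M` on it,
at the end points of which the directions of the vorticity differ by more than `ε`. -/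
def TurnsAt (T : ℝ) (u : ℝ → V → V) (a : V) : Prop :=
  ∃ ε : ℝ, 0 < ε ∧ ∀ M T₀ R : ℝ, 0 ≤ T₀ → T₀ < T → 0 < R →
    ∃ t ∈ Ioo T₀ T, ∃ (γ : ℝ → V) (l : ℝ), VortexArc (u t) M γ l ∧
      (∀ s ∈ Icc (0 : ℝ) l, ‖γ s - a‖ ≤ R) ∧ ε < len (dir (u t) (γ l) - dir (u t) (γ 0))

/-- The direction of the vorticity turns along the vortex lines at the singular points. -/
theorem turns {T : ℝ} {u : ℝ → V → V} {a : V} (h : BendsAt T u a) : TurnsAt T u a := by
  obtain ⟨ε, hε, h⟩ := h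
  refine ⟨min ε 1, lt_min hε one_pos, fun M T₀ R h0 h1 h2 => ?_⟩
  obtain ⟨t, ht, γ, l, ⟨hl, hγ⟩, hR, hlt⟩ := h (max M 0) T₀ R h0 h1 h2
  by_contra hcon
  push Not at hcon
  have hpos : ∀ s ∈ Icc (0 : ℝ) l, 0 < om (u t) (γ s) := fun s hs =>
    (le_max_right _ _).trans_lt (hγ s hs).1
  have hle : ∀ s ∈ Icc (0 : ℝ) l, len (dir (u t) (γ s) - dir (u t) (γ 0)) ≤ min ε 1 := by
    intro s hs
    rcases hs.1.eq_or_lt with h3 | h3
    · rw [← h3, sub_self]
      have : len (0 : V) = 0 := by simp [len]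
      rw [this]
      exact (lt_min hε one_pos).le
    · exact hcon t ht γ s ⟨h3, fun s' hs' => ⟨(le_max_left _ _).trans_lt
        (hγ s' ⟨hs'.1, hs'.2.trans hs.2⟩).1, (hγ s' ⟨hs'.1, hs'.2.trans hs.2⟩).2.mono
          (Icc_subset_Icc_right hs.2)⟩⟩ (fun s' hs' => hR s' ⟨hs'.1, hs'.2.trans hs.2⟩)
  have hi0 : (0 : ℝ) ∈ Icc (0 : ℝ) l := ⟨le_rfl, hl.le⟩
  have hil : l ∈ Icc (0 : ℝ) l := ⟨hl.le, le_rfl⟩
  have hlow : ∀ s ∈ Icc (0 : ℝ) l, 1 - ε ≤ dir (u t) (γ 0) ⬝ᵥ dir (u t) (γ s) := by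
    intro s hs
    have h3 := H2TV.dot_ge (H2TV.xi_unit (hpos 0 hi0)) (H2TV.xi_unit (hpos s hs)) (hle s hs)
    have h4 : min ε 1 ^ 2 / 2 ≤ ε := by
      have h5 := min_le_left ε 1
      have h6 := min_le_right ε 1
      have h7 : 0 < min ε 1 := lt_min hε one_pos
      nlinarith
    have h5 : 1 - min ε 1 ^ 2 / 2 ≤ dir (u t) (γ 0) ⬝ᵥ dir (u t) (γ s) := h3
    linarith
  have hder : ∀ s ∈ Icc 0 l, HasDerivWithinAt (fun s => dir (u t) (γ 0) ⬝ᵥ γ s)
      (dir (u t) (γ 0) ⬝ᵥ dir (u t) (γ s)) (Icc 0 l) s := fun s hs =>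
    H2TV.dot_deriv (hγ s hs).2 _
  have h5 := (convex_Icc (0 : ℝ) l).mul_sub_le_image_sub_of_le_deriv (C := 1 - ε)
    (f := fun s => dir (u t) (γ 0) ⬝ᵥ γ s) (fun s hs => (hder s hs).continuousWithinAt)
    (fun s hs => by
      rw [interior_Icc] at hs
      exact ((hder s (Ioo_subset_Icc_self hs)).hasDerivAt
        (Icc_mem_nhds hs.1 hs.2)).differentiableAt.differentiableWithinAt)
    (fun s hs => by
      rw [interior_Icc] at hs
      rw [((hder s (Ioo_subset_Icc_self hs)).hasDerivAt (Icc_mem_nhds hs.1 hs.2)).deriv]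
      exact hlow s (Ioo_subset_Icc_self hs))
    0 hi0 l hil hl.le
  have h6 := (le_abs_self _).trans (Pool.Agent.H1CV.dot_le_len' (dir (u t) (γ 0)) (γ l - γ 0))
  have h7 : len (dir (u t) (γ 0)) = 1 := by
    unfold len
    rw [show dir (u t) (γ 0) ⬝ᵥ dir (u t) (γ 0) = 1 from H2TV.xi_unit (hpos 0 hi0), Real.sqrt_one]
  have h8 : dir (u t) (γ 0) ⬝ᵥ (γ l - γ 0)
      = dir (u t) (γ 0) ⬝ᵥ γ l - dir (u t) (γ 0) ⬝ᵥ γ 0 := dotProduct_sub _ _ _
  rw [h7, one_mul, h8] at h6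
  linarith

/-- The special case of a modulus of continuity `σ`, up to the sign: for all `M`, `T₀ < T`, `R > 0`
there are `t` in `(T₀, T)` and `x`, `y` in the cube `‖y - a‖ ≤ R` with `|ω(x)| > M`, `|ω(y)| > M`
and `|ξ(x) × ξ(y)| > σ(‖x - y‖)` if `a` is a singular point. -/
theorem modulus {T : ℝ} {u : ℝ → V → V} {a : V} (h : TurnsAt T u a) {σ : ℝ → ℝ}
    (hσ : Filter.Tendsto σ (nhdsWithin 0 (Ioi 0)) (nhds 0)) {M T₀ R : ℝ} (h0 : 0 ≤ T₀)
    (hT : T₀ < T) (hR : 0 < R)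
    (hc : ∀ t ∈ Ioo T₀ T, ContinuousOn (vort (u t)) (closedBall a R)) :
    ∃ t ∈ Ioo T₀ T, ∃ x ∈ closedBall a R, ∃ y ∈ closedBall a R, M < om (u t) x ∧
      M < om (u t) y ∧ x ≠ y ∧ σ ‖x - y‖ < len (crossProduct (dir (u t) x) (dir (u t) y)) := by
  obtain ⟨ε, hε, h⟩ := h
  obtain ⟨κ, hκ⟩ : ∃ κ, κ = min ε 1 / 2 := ⟨_, rfl⟩
  have hκ0 : 0 < κ := by rw [hκ]; exact half_pos (lt_min hε one_pos)
  have hκ1 : κ ≤ 1 / 2 := by rw [hκ]; linarith [min_le_right ε 1]
  have hκε : 2 * κ ≤ ε := by rw [hκ]; linarith [min_le_left ε 1]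
  obtain ⟨δ, hδ, hsm⟩ := Metric.mem_nhdsWithin_iff.1 (hσ (Iio_mem_nhds hκ0))
  obtain ⟨r, hr⟩ : ∃ r, r = min R (δ / 4) := ⟨_, rfl⟩
  have hr0 : 0 < r := by rw [hr]; exact lt_min hR (by positivity)
  have hrR : r ≤ R := by rw [hr]; exact min_le_left _ _
  have hrδ : r ≤ δ / 4 := by rw [hr]; exact min_le_right _ _
  obtain ⟨t, ht, γ, l, ⟨hl, hγ⟩, hγr, hlt⟩ := h (max M 0) T₀ r h0 hT hr0
  by_contra hcon
  push Not at hcon
  have hpos : ∀ s ∈ Icc (0 : ℝ) l, 0 < om (u t) (γ s) := fun s hs =>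
    (le_max_right _ _).trans_lt (hγ s hs).1
  have hunit : ∀ s ∈ Icc (0 : ℝ) l, dir (u t) (γ s) ⬝ᵥ dir (u t) (γ s) = 1 := fun s hs =>
    H2TV.xi_unit (hpos s hs)
  have hmem : ∀ s ∈ Icc (0 : ℝ) l, γ s ∈ closedBall a R := fun s hs => by
    rw [mem_closedBall, dist_eq_norm]
    exact (hγr s hs).trans hrR
  have hi0 : (0 : ℝ) ∈ Icc (0 : ℝ) l := ⟨le_rfl, hl.le⟩
  have hil : l ∈ Icc (0 : ℝ) l := ⟨hl.le, le_rfl⟩
  have hcr : ∀ s ∈ Icc (0 : ℝ) l,
      len (crossProduct (dir (u t) (γ 0)) (dir (u t) (γ s))) ≤ κ := by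
    intro s hs
    by_cases hne : γ 0 = γ s
    · rw [← hne, cross_self]
      simpa [len] using hκ0.le
    · refine (hcon t ht _ (hmem 0 hi0) _ (hmem s hs) ((le_max_left _ _).trans_lt (hγ 0 hi0).1)
        ((le_max_left _ _).trans_lt (hγ s hs).1) hne).trans ?_
      have hd0 : 0 < ‖γ 0 - γ s‖ := norm_pos_iff.2 (sub_ne_zero.2 hne)
      have hd1 : ‖γ 0 - γ s‖ < δ := by
        have e : γ 0 - γ s = (γ 0 - a) - (γ s - a) := by abel
        rw [e]
        exact (norm_sub_le _ _).trans_lt (by linarith [hγr 0 hi0, hγr s hs])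
      have h1 : ‖γ 0 - γ s‖ ∈ ball (0 : ℝ) δ ∩ Ioi 0 := by
        refine ⟨?_, hd0⟩
        rw [mem_ball_zero_iff, Real.norm_eq_abs, abs_of_pos hd0]
        exact hd1
      exact (hsm h1).le
  -- the inner product does not vanish
  have hcont : ContinuousOn (fun s => dir (u t) (γ 0) ⬝ᵥ dir (u t) (γ s)) (Icc 0 l) := by
    have hγc : ContinuousOn γ (Icc 0 l) := fun s hs => (hγ s hs).2.continuousWithinAt
    have hv : ContinuousOn (fun s => vort (u t) (γ s)) (Icc 0 l) := (hc t ht).comp hγc hmem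
    have hvi : ∀ i : Fin 3, ContinuousOn (fun s => vort (u t) (γ s) i) (Icc 0 l) := fun i =>
      (continuous_apply i).comp_continuousOn hv
    have ho : ContinuousOn (fun s => om (u t) (γ s)) (Icc 0 l) := by
      unfold om len
      refine ContinuousOn.sqrt ?_
      simp only [Pool.Agent.Q151.CC.dot3]
      fun_prop
    have hoi : ContinuousOn (fun s => (om (u t) (γ s))⁻¹) (Icc 0 l) :=
      ho.inv₀ fun s hs => (hpos s hs).ne'
    unfold dir
    simp only [Pool.Agent.Q151.CC.dot3, Pi.smul_apply, smul_eq_mul]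
    fun_prop
  have hsq : ∀ s ∈ Icc (0 : ℝ) l, 1 - κ ^ 2 ≤ (dir (u t) (γ 0) ⬝ᵥ dir (u t) (γ s)) ^ 2 := by
    intro s hs
    have h1 := Pool.Agent.H1CV.lagr2 (dir (u t) (γ 0)) (dir (u t) (γ s))
    rw [hunit 0 hi0, hunit s hs, ← Pool.Agent.H1CV.len_sq'] at h1
    have h2 := pow_le_pow_left₀ (Pool.Agent.Q67.VD.len_nonneg _) (hcr s hs) 2
    linarith
  have hpl : 0 < dir (u t) (γ 0) ⬝ᵥ dir (u t) (γ l) := by
    by_contra hneg
    rw [not_lt] at hneg
    have h1 : (0 : ℝ) ∈ (fun s => dir (u t) (γ 0) ⬝ᵥ dir (u t) (γ s)) '' Icc 0 l :=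
      intermediate_value_Icc' hl.le hcont ⟨hneg, by
        show 0 ≤ dir (u t) (γ 0) ⬝ᵥ dir (u t) (γ 0)
        rw [hunit 0 hi0]
        norm_num⟩
    obtain ⟨s, hs, hs0⟩ := h1
    have h2 := hsq s hs
    have h3 : dir (u t) (γ 0) ⬝ᵥ dir (u t) (γ s) = 0 := hs0
    rw [h3] at h2
    nlinarith
  have hge : 1 - κ ^ 2 ≤ dir (u t) (γ 0) ⬝ᵥ dir (u t) (γ l) := by
    by_contra hlt2
    rw [not_le] at hlt2
    have h1 := hsq l hil
    nlinarith
  have hfin : len (dir (u t) (γ l) - dir (u t) (γ 0)) ^ 2 ≤ (2 * κ) ^ 2 := by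
    rw [Pool.Agent.H1CV.len_sq']
    have e : (dir (u t) (γ l) - dir (u t) (γ 0)) ⬝ᵥ (dir (u t) (γ l) - dir (u t) (γ 0))
        = dir (u t) (γ l) ⬝ᵥ dir (u t) (γ l) + dir (u t) (γ 0) ⬝ᵥ dir (u t) (γ 0)
          - 2 * (dir (u t) (γ 0) ⬝ᵥ dir (u t) (γ l)) := by
      simp only [Pool.Agent.Q151.CC.dot3, Pi.sub_apply]
      ring
    rw [e, hunit l hil, hunit 0 hi0]
    nlinarith
  have := (abs_le_of_sq_le_sq' hfin (by positivity)).2
  linarith

end Pool.Agent.Results.MP_6bf1e5_an.BendingOfVortexLines
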